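import Mathlib

namespace Pool.Agent.Lib.H96.LPDual

/-- Duality for packing and covering linear programs (finite, nonnegative matrix, no zero column):
if every fractional packing has value at most `c`, then some fractional cover has value at most
`c`. -/
theorem exists_cover {ι κ : Type*} [Fintype ι] [Fintype κ] (a : κ → ι → ℝ)
    (ha : ∀ s e, 0 ≤ a s e) (hcol : ∀ e, ∃ s, 0 < a s e) (c : ℝ) (hc : 0 ≤ c)
    (h : ∀ w : ι → ℝ, (∀ e, 0 ≤ w e) → (∀ s, ∑ e, a s e * w e ≤ 1) → ∑ e, w e ≤ c) :
    ∃ t : κ → ℝ, (∀ s, 0 ≤ t s) ∧ (∀ e, 1 ≤ ∑ s, a s e * t s) ∧ ∑ s, t s ≤ c := by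
  classical
  by_contra hcon
  push Not at hcon
  -- the compact set of candidate covers
  let T : Set (κ → ℝ) := {t | (∀ s, 0 ≤ t s) ∧ ∑ s, t s ≤ c}
  let L : (κ → ℝ) →ₗ[ℝ] (ι → ℝ) :=
    { toFun := fun t e => ∑ s, a s e * t s
      map_add' := by
        intro x y; ext e; simp [mul_add, Finset.sum_add_distrib]
      map_smul' := by
        intro m x; ext e
        simp only [Pi.smul_apply, smul_eq_mul, RingHom.id_apply, Finset.mul_sum]
        exact Finset.sum_congr rfl fun s _ => by ring }
  have hLc : Continuous L := L.continuous_of_finiteDimensional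
  have hTconv : Convex ℝ T := by
    intro x hx y hy p q hp hq hpq
    refine ⟨fun s => ?_, ?_⟩
    · have := hx.1 s
      have := hy.1 s
      simp only [Pi.add_apply, Pi.smul_apply, smul_eq_mul]
      positivity
    · simp only [Pi.add_apply, Pi.smul_apply, smul_eq_mul]
      rw [Finset.sum_add_distrib, ← Finset.mul_sum, ← Finset.mul_sum]
      have h1 := mul_le_mul_of_nonneg_left hx.2 hp
      have h2 := mul_le_mul_of_nonneg_left hy.2 hq
      have : p * c + q * c = c := by rw [← add_mul, hpq, one_mul]
      linarith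
  have hTcomp : IsCompact T := by
    have hclosed : IsClosed T := by
      have h1 : T = (⋂ s, {t : κ → ℝ | 0 ≤ t s}) ∩ {t | ∑ s, t s ≤ c} := by
        ext t; simp [T]
      rw [h1]
      refine IsClosed.inter (isClosed_iInter fun s => ?_) ?_
      · exact isClosed_le continuous_const (continuous_apply s)
      · exact isClosed_le (by fun_prop) continuous_const
    refine IsCompact.of_isClosed_subset (isCompact_univ_pi fun _ : κ => isCompact_Icc (a := 0)
      (b := c)) hclosed ?_
    intro t ht s _
    refine ⟨ht.1 s, le_trans ?_ ht.2⟩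
    exact Finset.single_le_sum (f := t) (fun i _ => ht.1 i) (Finset.mem_univ s)
  let Q : Set (ι → ℝ) := {x | ∀ e, 1 ≤ x e}
  have hQconv : Convex ℝ Q := by
    intro x hx y hy p q hp hq hpq e
    simp only [Pi.add_apply, Pi.smul_apply, smul_eq_mul]
    have h1 := mul_le_mul_of_nonneg_left (hx e) hp
    have h2 := mul_le_mul_of_nonneg_left (hy e) hq
    linarith
  have hQclosed : IsClosed Q := by
    have h1 : Q = ⋂ e, {x : ι → ℝ | 1 ≤ x e} := by ext x; simp [Q]
    rw [h1]
    exact isClosed_iInter fun e => isClosed_le continuous_const (continuous_apply e)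
  have hdisj : Disjoint (L '' T) Q := by
    rw [Set.disjoint_left]
    rintro _ ⟨t, ht, rfl⟩ hQ
    exact absurd ht.2 (not_le.mpr (hcon t ht.1 hQ))
  obtain ⟨f, u, v, hu, huv, hv⟩ := geometric_hahn_banach_compact_closed
    (hTconv.linear_image L) (hTcomp.image hLc) hQconv hQclosed hdisj
  let w : ι → ℝ := fun e => f (Pi.single e 1)
  have hf : ∀ x : ι → ℝ, f x = ∑ e, w e * x e := by
    intro x
    have hx : x = ∑ e, x e • (Pi.single e (1 : ℝ) : ι → ℝ) := by
      ext i
      simp [Finset.sum_apply, Pi.single_apply]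
    conv_lhs => rw [hx]
    rw [map_sum]
    refine Finset.sum_congr rfl fun e _ => ?_
    rw [map_smul, smul_eq_mul, mul_comm]
  have hw0 : ∀ e, 0 ≤ w e := by
    intro e
    by_contra hneg
    push Not at hneg
    -- move far in the direction `e`
    have h1 : ∀ l : ℝ, 0 ≤ l → v < ∑ e, w e + l * w e := by
      intro l hl
      have hmem : ((fun _ => 1) + l • (Pi.single e (1 : ℝ) : ι → ℝ)) ∈ Q := by
        intro i
        simp only [Pi.add_apply, Pi.smul_apply, smul_eq_mul, Pi.single_apply]
        split_ifs <;> simp [hl]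
      have := hv _ hmem
      rw [map_add, map_smul, hf] at this
      simpa using this
    have h2 := h1 (max 0 ((∑ e, w e - v) / (-w e))) (le_max_left _ _)
    have h3 : (∑ e, w e - v) / (-w e) ≤ max 0 ((∑ e, w e - v) / (-w e)) := le_max_right _ _
    rw [div_le_iff₀ (by linarith)] at h3
    linarith
  have h0 : 0 < u := by
    have hmem : (0 : ι → ℝ) ∈ L '' T := ⟨0, ⟨fun _ => le_refl _, by simpa using hc⟩, by simp⟩
    have := hu _ hmem
    simpa using this
  have hW : u < ∑ e, w e := by
    have hmem : (fun _ => (1 : ℝ)) ∈ Q := fun _ => le_refl _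
    have := hv _ hmem
    rw [hf] at this
    simp only [mul_one] at this
    linarith
  have hs : ∀ s, c * ∑ e, a s e * w e < u := by
    intro s
    have hmem : L (Pi.single s c) ∈ L '' T := by
      refine ⟨_, ⟨fun i => ?_, ?_⟩, rfl⟩
      · rw [Pi.single_apply]; split_ifs <;> simp [hc]
      · simp
    have := hu _ hmem
    rw [hf] at this
    have h1 : ∑ e, w e * L (Pi.single s c) e = c * ∑ e, a s e * w e := by
      rw [Finset.mul_sum]
      refine Finset.sum_congr rfl fun e _ => ?_
      have h2 : L (Pi.single s c) e = a s e * c := by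
        change ∑ i, a i e * (Pi.single s c : κ → ℝ) i = a s e * c
        simp [Pi.single_apply]
      rw [h2]; ring
    rwa [h1] at this
  have hι : Nonempty ι := by
    by_contra hemp
    rw [not_nonempty_iff] at hemp
    simp at hW
    linarith
  have hκ : Nonempty κ := by
    obtain ⟨e⟩ := hι
    obtain ⟨s, _⟩ := hcol e
    exact ⟨s⟩
  obtain ⟨s₀, _, hs₀⟩ := Finset.exists_max_image Finset.univ (fun s => ∑ e, a s e * w e)
    Finset.univ_nonempty
  set m := ∑ e, a s₀ e * w e with hm
  have hm0 : 0 < m := by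
    obtain ⟨e, _, he⟩ : ∃ e ∈ Finset.univ, 0 < w e := by
      apply Finset.exists_lt_of_sum_lt
      simp only [Finset.sum_const_zero]
      linarith
    obtain ⟨s, hse⟩ := hcol e
    have h1 : a s e * w e ≤ ∑ e, a s e * w e :=
      Finset.single_le_sum (f := fun e => a s e * w e)
        (fun i _ => mul_nonneg (ha s i) (hw0 i)) (Finset.mem_univ e)
    have h2 := hs₀ s (Finset.mem_univ s)
    have h3 := mul_pos hse he
    linarith
  have h4 := h (fun e => w e / m) (fun e => div_nonneg (hw0 e) hm0.le) (by
    intro s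
    have h5 : ∑ e, a s e * (w e / m) = (∑ e, a s e * w e) / m := by
      rw [Finset.sum_div]
      exact Finset.sum_congr rfl fun e _ => by ring
    rw [h5, div_le_one hm0]
    exact hs₀ s (Finset.mem_univ s))
  rw [← Finset.sum_div, div_le_iff₀ hm0] at h4
  have h5 := hs s₀
  linarith

end Pool.Agent.Lib.H96.LPDual
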