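import Pool.Agent.Lib.H96.RdvCoin

/-!
# The coin half tour strategy: lower bound for the expected meeting time
-/

open MeasureTheory Set
open scoped ENNReal NNReal

namespace Pool.Agent.Lib.H96.Rdv

/-- Value of `G` when the first disagreement is at `N`. -/
lemma G_eq_of_first (h : Bool → Bool → ℝ≥0∞) (ω ω' : ℕ → Bool) (N : ℕ)
    (hag : ∀ j < N, ω j = ω' j) (hd : ω N ≠ ω' N) :
    G h ω ω' = (∑ n ∈ Finset.range N, h (ω n) (ω n)) + h (ω N) (ω' N) := by
  unfold G
  rw [tsum_eq_sum (s := Finset.range (N + 1)), Finset.sum_range_succ]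
  · congr 1
    · apply Finset.sum_congr rfl
      intro n hn
      have hn' : n < N := Finset.mem_range.mp hn
      unfold term
      rw [if_pos (fun j hj => hag j (by omega)), ← hag n hn']
    · unfold term
      rw [if_pos hag]
  · intro n hn
    have hn' : N < n := by
      have := Finset.mem_range.not.mp hn
      omega
    unfold term
    rw [if_neg]
    intro h
    exact hd (h N hn')

lemma circ_iff (x r₁ r₂ : ℝ) :
    ((x : ℝ) : UnitAddCircle) + ((r₁ : ℝ) : UnitAddCircle) = ((r₂ : ℝ) : UnitAddCircle) ↔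
      ∃ n : ℤ, (n : ℝ) = x + r₁ - r₂ := by
  rw [← AddCircle.coe_add, ← sub_eq_zero, ← AddCircle.coe_sub, AddCircle.coe_eq_zero_iff]
  simp

/-- The expected meeting time (integrated over the uniform rotation) of two circle paths. -/
noncomputable def meet (p₁ p₂ : ℝ≥0 → UnitAddCircle) : ℝ≥0∞ :=
  ∫⁻ a : UnitAddCircle, ⨅ (τ : ℝ≥0) (_ : a + p₁ τ = p₂ τ), ((τ : ENNReal))

/-- Position (real lift) at time `τ` of the coin half tour with coins `ω`. -/
noncomputable def coPos (ω : ℕ → Bool) (τ : ℝ≥0) : ℝ :=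
  (∑ j ∈ Finset.range ⌊2 * (τ : ℝ)⌋₊, (if ω j then (1 / 2 : ℝ) else -1 / 2))
    + (if ω ⌊2 * (τ : ℝ)⌋₊ then (1 : ℝ) else -1)
      * ((τ : ℝ) - (⌊2 * (τ : ℝ)⌋₊ : ℝ) / 2)

/-- Cost of a half period for the coin half tour. -/
noncomputable def hCO (b b' : Bool) : ℝ≥0∞ := if b = b' then 1 / 2 else 1 / 4

lemma lintegral_Ioc_ofReal_affine (c d : ℝ) (hc : 0 ≤ c) (hd : 0 ≤ c + d) :
    ∫⁻ x in Ioc (0 : ℝ) 1, ENNReal.ofReal (c + d * x) = ENNReal.ofReal (c + d / 2) := by
  rw [← ofReal_integral_eq_lintegral_ofReal]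
  · congr 1
    rw [← intervalIntegral.integral_of_le (by norm_num : (0:ℝ) ≤ 1)]
    rw [intervalIntegral.integral_add (by simp) (by
      apply Continuous.intervalIntegrable; fun_prop)]
    rw [intervalIntegral.integral_const_mul]
    simp
    ring
  · apply Continuous.integrableOn_Ioc
    fun_prop
  · rw [Filter.EventuallyLE, ae_restrict_iff' measurableSet_Ioc]
    refine Filter.Eventually.of_forall fun x hx => ?_
    simp only [Pi.zero_apply]
    have h1 := hx.1
    have h2 := hx.2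
    nlinarith

lemma coPos_eq_of_agree (ω₁ ω₂ : ℕ → Bool) (N : ℕ) (hag : ∀ j < N, ω₁ j = ω₂ j) (τ : ℝ≥0)
    (hτ : ⌊2 * (τ : ℝ)⌋₊ < N) : coPos ω₁ τ = coPos ω₂ τ := by
  unfold coPos
  rw [hag _ hτ]
  congr 1
  apply Finset.sum_congr rfl
  intro j hj
  rw [hag j (by have := Finset.mem_range.mp hj; omega)]

lemma coPos_diff (ω₁ ω₂ : ℕ → Bool) (N : ℕ) (hag : ∀ j < N, ω₁ j = ω₂ j) (τ : ℝ≥0)
    (hτ : ⌊2 * (τ : ℝ)⌋₊ = N) : coPos ω₁ τ - coPos ω₂ τ =
      ((if ω₁ N then (1 : ℝ) else -1) - (if ω₂ N then (1 : ℝ) else -1)) * ((τ : ℝ) - N / 2) := by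
  unfold coPos
  rw [hτ]
  have : ∑ j ∈ Finset.range N, (if ω₁ j then (1 / 2 : ℝ) else -1 / 2)
      = ∑ j ∈ Finset.range N, (if ω₂ j then (1 / 2 : ℝ) else -1 / 2) := by
    apply Finset.sum_congr rfl
    intro j hj
    rw [hag j (Finset.mem_range.mp hj)]
  rw [this]
  ring

/-- Lower bound for the time at which two coin half tours meet. -/
lemma co_time_lower (ω₁ ω₂ : ℕ → Bool) (N : ℕ) (hag : ∀ j < N, ω₁ j = ω₂ j)
    (hd : ω₁ N ≠ ω₂ N) (x : ℝ) (hx : x ∈ Ioo (0 : ℝ) 1) (τ : ℝ≥0)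
    (hτ : ((x : ℝ) : UnitAddCircle) + ((coPos ω₁ τ : ℝ) : UnitAddCircle)
      = ((coPos ω₂ τ : ℝ) : UnitAddCircle)) :
    (N : ℝ) / 2 + (if ω₂ N then x / 2 else (1 - x) / 2) ≤ τ := by
  rw [circ_iff] at hτ
  obtain ⟨n, hn⟩ := hτ
  have hfl := Nat.floor_le (by positivity : (0 : ℝ) ≤ 2 * (τ : ℝ))
  have hfl2 := Nat.lt_floor_add_one (2 * (τ : ℝ))
  rcases lt_trichotomy ⌊2 * (τ : ℝ)⌋₊ N with hlt | heq | hgt
  · -- agree: contradiction
    rw [coPos_eq_of_agree ω₁ ω₂ N hag τ hlt] at hn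
    have h1 : (n : ℝ) = x := by linarith
    have h2 : (0 : ℝ) < n := by rw [h1]; exact hx.1
    have h3 : (n : ℝ) < 1 := by rw [h1]; exact hx.2
    have h4 : 0 < n := by exact_mod_cast h2
    have h5 : n < 1 := by exact_mod_cast h3
    omega
  · have hdiff := coPos_diff ω₁ ω₂ N hag τ heq
    rw [heq] at hfl hfl2
    have hu0 : 0 ≤ (τ : ℝ) - N / 2 := by linarith
    have hu1 : (τ : ℝ) - N / 2 < 1 / 2 := by linarith
    cases h2 : ω₂ N
    · have h1 : ω₁ N = true := by
        cases h : ω₁ N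
        · exact absurd (h.trans h2.symm) hd
        · rfl
      rw [h1, h2] at hdiff
      simp only [if_true, Bool.false_eq_true, if_false] at hdiff ⊢
      -- n = x + 2 (τ - N/2)
      have h3 : (n : ℝ) = x + 2 * ((τ : ℝ) - N / 2) := by linarith
      have h4 : (0 : ℝ) < n := by rw [h3]; linarith [hx.1]
      have h5 : 0 < n := by exact_mod_cast h4
      have h6 : (1 : ℝ) ≤ n := by exact_mod_cast h5
      linarith
    · have h1 : ω₁ N = false := by
        cases h : ω₁ N
        · rfl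
        · exact absurd (h.trans h2.symm) hd
      rw [h1, h2] at hdiff
      simp only [if_true, Bool.false_eq_true, if_false] at hdiff ⊢
      have h3 : (n : ℝ) = x - 2 * ((τ : ℝ) - N / 2) := by linarith
      have h4 : (n : ℝ) < 1 := by rw [h3]; linarith [hx.2]
      have h5 : n < 1 := by exact_mod_cast h4
      have h6 : (n : ℝ) ≤ 0 := by exact_mod_cast (by omega : n ≤ 0)
      linarith
  · have h1 : (N : ℝ) + 1 ≤ ⌊2 * (τ : ℝ)⌋₊ := by exact_mod_cast hgt
    have hx1 := hx.1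
    have hx2 := hx.2
    split_ifs <;> linarith

lemma co_lower (ω₁ ω₂ : ℕ → Bool) :
    G hCO ω₁ ω₂ ≤ meet (fun τ => ((coPos ω₁ τ : ℝ) : UnitAddCircle))
      (fun τ => ((coPos ω₂ τ : ℝ) : UnitAddCircle)) := by
  unfold meet
  rw [← UnitAddCircle.lintegral_preimage 0, zero_add]
  by_cases hne : ω₁ = ω₂
  · subst hne
    have h1 : (⊤ : ℝ≥0∞) = ∫⁻ x in Ioo (0 : ℝ) 1, (⊤ : ℝ≥0∞) := by
      simp
    calc G hCO ω₁ ω₁ ≤ ⊤ := le_top
      _ = ∫⁻ x in Ioo (0 : ℝ) 1, (⊤ : ℝ≥0∞) := h1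
      _ ≤ ∫⁻ x in Ioo (0 : ℝ) 1, ⨅ (τ : ℝ≥0) (_ : ((x : ℝ) : UnitAddCircle)
            + ((coPos ω₁ τ : ℝ) : UnitAddCircle) = ((coPos ω₁ τ : ℝ) : UnitAddCircle)),
            (τ : ℝ≥0∞) := by
          apply setLIntegral_mono' measurableSet_Ioo
          intro x hx
          refine le_iInf₂ fun τ hτ => ?_
          rw [circ_iff] at hτ
          obtain ⟨n, hn⟩ := hτ
          have h1 : (n : ℝ) = x := by linarith
          have h2 : (0 : ℝ) < n := by rw [h1]; exact hx.1
          have h3 : (n : ℝ) < 1 := by rw [h1]; exact hx.2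
          have h4 : 0 < n := by exact_mod_cast h2
          have h5 : n < 1 := by exact_mod_cast h3
          omega
      _ ≤ _ := lintegral_mono_set Ioo_subset_Ioc_self
  · have hex : ∃ N, ω₁ N ≠ ω₂ N := by
      by_contra h
      push Not at h
      exact hne (funext h)
    classical
    let N := Nat.find hex
    have hd : ω₁ N ≠ ω₂ N := Nat.find_spec hex
    have hag : ∀ j < N, ω₁ j = ω₂ j := fun j hj => by
      have := Nat.find_min hex hj
      push Not at this
      exact this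
    rw [G_eq_of_first hCO ω₁ ω₂ N hag hd]
    have hval : (∑ n ∈ Finset.range N, hCO (ω₁ n) (ω₁ n)) + hCO (ω₁ N) (ω₂ N)
        = ENNReal.ofReal ((N : ℝ) / 2 + 1 / 4) := by
      simp only [hCO, if_true, Finset.sum_const, Finset.card_range, if_neg hd]
      rw [ENNReal.ofReal_add (by positivity) (by norm_num), nsmul_eq_mul]
      congr 1
      · rw [ENNReal.ofReal_div_of_pos (by norm_num)]
        simp [div_eq_mul_inv]
      · rw [ENNReal.ofReal_div_of_pos (by norm_num)]
        simp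
    rw [hval]
    calc ENNReal.ofReal ((N : ℝ) / 2 + 1 / 4)
        = ∫⁻ x in Ioc (0 : ℝ) 1, ENNReal.ofReal
            ((N : ℝ) / 2 + (if ω₂ N then x / 2 else (1 - x) / 2)) := by
          cases ω₂ N
          · simp only [Bool.false_eq_true, if_false]
            have : ∀ x : ℝ, (N : ℝ) / 2 + (1 - x) / 2 = ((N : ℝ) / 2 + 1 / 2) + (-1 / 2) * x := by
              intro x; ring
            simp_rw [this]
            rw [lintegral_Ioc_ofReal_affine _ _ (by positivity) (by
              have : (0 : ℝ) ≤ N := by positivity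
              linarith)]
            congr 1
            ring
          · simp only [if_true]
            have : ∀ x : ℝ, (N : ℝ) / 2 + x / 2 = ((N : ℝ) / 2) + (1 / 2) * x := by
              intro x; ring
            simp_rw [this]
            rw [lintegral_Ioc_ofReal_affine _ _ (by positivity) (by positivity)]
            congr 1
            ring
      _ = ∫⁻ x in Ioo (0 : ℝ) 1, ENNReal.ofReal
            ((N : ℝ) / 2 + (if ω₂ N then x / 2 else (1 - x) / 2)) := by
          rw [restrict_Ioo_eq_restrict_Ioc]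
      _ ≤ ∫⁻ x in Ioo (0 : ℝ) 1, ⨅ (τ : ℝ≥0) (_ : ((x : ℝ) : UnitAddCircle)
            + ((coPos ω₁ τ : ℝ) : UnitAddCircle) = ((coPos ω₂ τ : ℝ) : UnitAddCircle)),
            (τ : ℝ≥0∞) := by
          apply setLIntegral_mono' measurableSet_Ioo
          intro x hx
          refine le_iInf₂ fun τ hτ => ?_
          have := co_time_lower ω₁ ω₂ N hag hd x hx τ hτ
          rw [← ENNReal.ofReal_coe_nnreal]
          exact ENNReal.ofReal_le_ofReal this
      _ ≤ _ := lintegral_mono_set Ioo_subset_Ioc_self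

/-- The expected meeting time of the coin half tour is at least `3/4`. -/
lemma co_value_lower : (3 / 4 : ℝ≥0∞) ≤ ∫⁻ ω₁, (∫⁻ ω₂,
    meet (fun τ => ((coPos ω₁ τ : ℝ) : UnitAddCircle))
      (fun τ => ((coPos ω₂ τ : ℝ) : UnitAddCircle)) ∂coin) ∂coin := by
  calc (3 / 4 : ℝ≥0∞) = ∫⁻ ω, (∫⁻ ω', G hCO ω ω' ∂coin) ∂coin := by
        rw [lintegral_G]
        simp only [hCO]
        simp only [if_true, Bool.true_eq_false, if_false, Bool.false_eq_true]
        have h1 : (1 / 2 : ℝ≥0∞) = ENNReal.ofReal (1 / 2) := by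
          rw [ENNReal.ofReal_div_of_pos (by norm_num)]; simp
        have h2 : (1 / 4 : ℝ≥0∞) = ENNReal.ofReal (1 / 4) := by
          rw [ENNReal.ofReal_div_of_pos (by norm_num)]; simp
        have h3 : (3 / 4 : ℝ≥0∞) = ENNReal.ofReal (3 / 4) := by
          rw [ENNReal.ofReal_div_of_pos (by norm_num)]; simp
        have h4 : (2 : ℝ≥0∞) = ENNReal.ofReal 2 := by simp
        rw [h1, h2, h3, h4, ← ENNReal.ofReal_add (by norm_num) (by norm_num),
          ← ENNReal.ofReal_add (by norm_num) (by norm_num),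
          ← ENNReal.ofReal_add (by norm_num) (by norm_num),
          ← ENNReal.ofReal_div_of_pos (by norm_num)]
        norm_num
    _ ≤ _ := lintegral_mono fun ω₁ => lintegral_mono fun ω₂ => co_lower ω₁ ω₂

end Pool.Agent.Lib.H96.Rdv
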