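import Mathlib

/-!
# Coin sequences: integrals of functions of the first disagreement
-/

open MeasureTheory Set
open scoped ENNReal

namespace Pool.Agent.Lib.H96.Rdv

/-- The fair coin measure on infinite sequences. -/
noncomputable abbrev coin : Measure (ℕ → Bool) :=
  Measure.infinitePi (fun _ : ℕ => (PMF.uniformOfFintype Bool).toMeasure)

lemma bool_measure_singleton (b : Bool) :
    (PMF.uniformOfFintype Bool).toMeasure {b} = 1 / 2 := by
  rw [PMF.toMeasure_apply_singleton _ _ (measurableSet_singleton _)]
  simp

/-- Probability that the first `n` coins take prescribed values, and the `n`-th is `b`. -/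
lemma coin_cylinder (ω : ℕ → Bool) (n : ℕ) (b : Bool) :
    coin {ω' | (∀ j < n, ω j = ω' j) ∧ ω' n = b} = (1 / 2) ^ (n + 1) := by
  have : {ω' : ℕ → Bool | (∀ j < n, ω j = ω' j) ∧ ω' n = b}
      = Set.pi (Finset.range (n + 1) : Set ℕ) (fun j => {if j < n then ω j else b}) := by
    ext ω'
    simp only [mem_ofPred_eq, Set.mem_pi, Finset.coe_range, mem_Iio, mem_singleton_iff]
    constructor
    · rintro ⟨h1, h2⟩ j hj
      rcases Nat.lt_succ_iff_lt_or_eq.mp hj with h | h
      · rw [if_pos h]; exact (h1 j h).symm
      · subst h; rw [if_neg (lt_irrefl _)]; exact h2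
    · intro h
      refine ⟨fun j hj => ?_, ?_⟩
      · have := h j (by omega)
        rw [if_pos hj] at this
        exact this.symm
      · have := h n (by omega)
        rwa [if_neg (lt_irrefl _)] at this
  rw [this, Measure.infinitePi_pi]
  · simp only [bool_measure_singleton]
    simp
  · intro i _
    exact measurableSet_singleton _

lemma coin_eval (n : ℕ) (b : Bool) : coin {ω' | ω' n = b} = 1 / 2 := by
  have : {ω' : ℕ → Bool | ω' n = b}
      = Set.pi (({n} : Finset ℕ) : Set ℕ) (fun _ => {b}) := by
    ext ω'
    simp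
  rw [this, Measure.infinitePi_pi]
  · simp only [bool_measure_singleton]
    simp
  · intro i _
    exact measurableSet_singleton _

/-- `agr n ω ω'` is `1` if the first `n` coins agree and `0` otherwise, times the value of `h` at
the `n`-th coins. -/
noncomputable def term (h : Bool → Bool → ℝ≥0∞) (n : ℕ) (ω ω' : ℕ → Bool) : ℝ≥0∞ :=
  open Classical in if ∀ j < n, ω j = ω' j then h (ω n) (ω' n) else 0

/-- Accumulated cost up to the first disagreement. -/
noncomputable def G (h : Bool → Bool → ℝ≥0∞) (ω ω' : ℕ → Bool) : ℝ≥0∞ :=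
  ∑' n, term h n ω ω'

lemma measurable_of_finset_dep {β : Type*} [MeasurableSpace β] (N : ℕ) (f : (ℕ → Bool) → β)
    (hf : ∀ ω ω' : ℕ → Bool, (∀ j < N, ω j = ω' j) → f ω = f ω') : Measurable f := by
  -- f factors through the restriction to the first `N` coordinates
  let r : (ℕ → Bool) → (Fin N → Bool) := fun ω j => ω j
  have hr : Measurable r := by
    apply measurable_pi_lambda
    intro j
    exact measurable_pi_apply _
  let g : (Fin N → Bool) → β := fun v => f (fun j => if h : j < N then v ⟨j, h⟩ else false)
  have hfg : f = g ∘ r := by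
    funext ω
    apply hf
    intro j hj
    simp [r, hj]
  rw [hfg]
  exact (measurable_of_finite g).comp hr

lemma measurable_term_right (h : Bool → Bool → ℝ≥0∞) (n : ℕ) (ω : ℕ → Bool) :
    Measurable (fun ω' => term h n ω ω') := by
  apply measurable_of_finset_dep (n + 1)
  intro a b hab
  unfold term
  have h1 : (∀ j < n, ω j = a j) ↔ (∀ j < n, ω j = b j) := by
    constructor
    · intro h j hj; rw [h j hj, hab j (by omega)]
    · intro h j hj; rw [h j hj, hab j (by omega)]
  rw [hab n (by omega)]
  simp only [h1]

lemma lintegral_term (h : Bool → Bool → ℝ≥0∞) (n : ℕ) (ω : ℕ → Bool) :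
    ∫⁻ ω', term h n ω ω' ∂coin = (1 / 2) ^ (n + 1) * (h (ω n) true + h (ω n) false) := by
  have hterm : ∀ ω', term h n ω ω'
      = Set.indicator {ω' | (∀ j < n, ω j = ω' j) ∧ ω' n = true} (fun _ => h (ω n) true) ω'
        + Set.indicator {ω' | (∀ j < n, ω j = ω' j) ∧ ω' n = false} (fun _ => h (ω n) false) ω' := by
    intro ω'
    unfold term
    by_cases h1 : ∀ j < n, ω j = ω' j
    · rw [if_pos h1]
      cases h2 : ω' n
      · rw [Set.indicator_of_notMem, Set.indicator_of_mem, zero_add]
        · exact ⟨h1, h2⟩
        · rintro ⟨-, h3⟩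
          rw [h2] at h3
          exact Bool.noConfusion h3
      · rw [Set.indicator_of_mem, Set.indicator_of_notMem, add_zero]
        · rintro ⟨-, h3⟩
          rw [h2] at h3
          exact Bool.noConfusion h3
        · exact ⟨h1, h2⟩
    · rw [if_neg h1]
      rw [Set.indicator_of_notMem, Set.indicator_of_notMem, add_zero]
      · exact fun h => h1 h.1
      · exact fun h => h1 h.1
  have hmeas : ∀ b, MeasurableSet {ω' : ℕ → Bool | (∀ j < n, ω j = ω' j) ∧ ω' n = b} := by
    intro b
    have : Measurable (fun ω' : ℕ → Bool => ((∀ j < n, ω j = ω' j) ∧ ω' n = b : Prop)) := by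
      apply measurable_of_finset_dep (n + 1)
      intro x y hxy
      apply propext
      constructor
      · rintro ⟨h1, h2⟩
        exact ⟨fun j hj => by rw [h1 j hj, hxy j (by omega)], by rw [← hxy n (by omega)]; exact h2⟩
      · rintro ⟨h1, h2⟩
        exact ⟨fun j hj => by rw [h1 j hj, hxy j (by omega)], by rw [hxy n (by omega)]; exact h2⟩
    exact measurableSet_setOfPred.mpr this
  simp_rw [hterm]
  rw [lintegral_add_left ((measurable_const).indicator (hmeas true)),
    lintegral_indicator (hmeas true), lintegral_indicator (hmeas false)]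
  rw [lintegral_const, lintegral_const, Measure.restrict_apply_univ, Measure.restrict_apply_univ,
    coin_cylinder, coin_cylinder]
  ring

lemma lintegral_eval (g : Bool → ℝ≥0∞) (n : ℕ) :
    ∫⁻ ω, g (ω n) ∂coin = (g true + g false) / 2 := by
  have hterm : ∀ ω : ℕ → Bool, g (ω n)
      = Set.indicator {ω' : ℕ → Bool | ω' n = true} (fun _ => g true) ω
        + Set.indicator {ω' : ℕ → Bool | ω' n = false} (fun _ => g false) ω := by
    intro ω
    cases h2 : ω n <;> simp [Set.indicator, h2]
  have hmeas : ∀ b, MeasurableSet {ω' : ℕ → Bool | ω' n = b} := by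
    intro b
    have h1 : Measurable (fun ω' : ℕ → Bool => ω' n) := measurable_pi_apply n
    exact h1 (measurableSet_singleton b)
  simp_rw [hterm]
  rw [lintegral_add_left ((measurable_const).indicator (hmeas true)),
    lintegral_indicator (hmeas true), lintegral_indicator (hmeas false)]
  rw [lintegral_const, lintegral_const, Measure.restrict_apply_univ, Measure.restrict_apply_univ,
    coin_eval, coin_eval]
  simp only [div_eq_mul_inv, one_mul, add_mul]

/-- The expected accumulated cost. -/
lemma lintegral_G (h : Bool → Bool → ℝ≥0∞) :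
    ∫⁻ ω, (∫⁻ ω', G h ω ω' ∂coin) ∂coin
      = (h true true + h true false + h false true + h false false) / 2 := by
  unfold G
  have h1 : ∀ ω, ∫⁻ ω', (∑' n, term h n ω ω') ∂coin
      = ∑' n, (1 / 2) ^ (n + 1) * (h (ω n) true + h (ω n) false) := by
    intro ω
    rw [lintegral_tsum (fun n => (measurable_term_right h n ω).aemeasurable)]
    simp_rw [lintegral_term]
  simp_rw [h1]
  rw [lintegral_tsum]
  · have h2 : ∀ n : ℕ, ∫⁻ ω : ℕ → Bool, (1 / 2) ^ (n + 1) * (h (ω n) true + h (ω n) false) ∂coin
        = (1 / 2) ^ (n + 1) * ((h true true + h true false + h false true + h false false) / 2) := by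
      intro n
      rw [lintegral_eval (fun b => (1 / 2) ^ (n + 1) * (h b true + h b false)) n]
      rw [← mul_add, mul_div_assoc]
      congr 2
      ring
    simp_rw [h2]
    rw [ENNReal.tsum_mul_right]
    have h3 : ∑' n : ℕ, ((1 : ℝ≥0∞) / 2) ^ (n + 1) = 1 := by
      rw [ENNReal.tsum_geometric_add_one, one_div, ENNReal.one_sub_inv_two, inv_inv]
      exact ENNReal.inv_mul_cancel (by norm_num) (by norm_num)
    rw [h3, one_mul]
  · intro n
    have : Measurable (fun ω : ℕ → Bool =>
        ((1 : ℝ≥0∞) / 2) ^ (n + 1) * (h (ω n) true + h (ω n) false)) := by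
      apply measurable_of_finset_dep (n + 1)
      intro a b hab
      rw [hab n (by omega)]
    exact this.aemeasurable

end Pool.Agent.Lib.H96.Rdv
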