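import Pool.Agent.Lib.H96.RdvStrategy

/-!
# The mixed strategy as a Borel measure on the space of continuous paths
-/

open MeasureTheory Set
open scoped ENNReal NNReal

namespace Pool.Agent.Lib.H96.Rdv

/-- The Borel sigma-algebra on the path space. -/
local instance instMeasPath : MeasurableSpace C(ℝ≥0, UnitAddCircle) :=
  borel C(ℝ≥0, UnitAddCircle)

local instance instBorelPath : BorelSpace C(ℝ≥0, UnitAddCircle) := ⟨rfl⟩

lemma continuous_cat (c : ℕ) : Continuous (cat c) := by
  apply continuous_pi
  intro j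
  unfold cat
  by_cases h : j < 6
  · simp only [h, if_true]
    exact continuous_const
  · simp only [h, if_false]
    exact continuous_apply _

lemma measurable_path_cat (c : ℕ) : Measurable (fun ω => path (cat c ω)) :=
  (continuous_path.comp (continuous_cat c)).measurable

/-- The mixed strategy: choose one of the ten codes uniformly, follow it up to time `3/2`,
afterwards coin half tours. -/
noncomputable def mixed : @Measure C(ℝ≥0, UnitAddCircle) (borel C(ℝ≥0, UnitAddCircle)) :=
  ((1 : ℝ≥0∞) / 10) • ∑ c ∈ codes, Measure.map (fun ω => path (cat c ω)) coin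

lemma isProbabilityMeasure_mixed : IsProbabilityMeasure mixed := by
  constructor
  unfold mixed
  rw [Measure.smul_apply, Measure.finsetSum_apply]
  have : ∀ c ∈ codes, (Measure.map (fun ω => path (cat c ω)) coin) univ = 1 := by
    intro c _
    rw [Measure.map_apply (measurable_path_cat c) MeasurableSet.univ]
    simp
  rw [Finset.sum_congr rfl this]
  have hcard : codes.card = 10 := by decide
  rw [Finset.sum_const, hcard]
  simp only [smul_eq_mul, nsmul_eq_mul, mul_one, one_div]
  exact ENNReal.inv_mul_cancel (by norm_num) (by norm_num)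

lemma isClosed_strategies :
    IsClosed {f : C(ℝ≥0, UnitAddCircle) | LipschitzWith 1 (⇑f) ∧ f 0 = 0} := by
  have h : {f : C(ℝ≥0, UnitAddCircle) | LipschitzWith 1 (⇑f) ∧ f 0 = 0}
      = (⋂ x : ℝ≥0, ⋂ y : ℝ≥0, {f : C(ℝ≥0, UnitAddCircle) | dist (f x) (f y) ≤ dist x y})
        ∩ {f : C(ℝ≥0, UnitAddCircle) | f 0 = 0} := by
    ext f
    simp only [mem_ofPred_eq, mem_inter_iff, mem_iInter, lipschitzWith_iff_dist_le_mul,
      NNReal.coe_one, one_mul]
  rw [h]
  apply IsClosed.inter
  · apply isClosed_iInter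
    intro x
    apply isClosed_iInter
    intro y
    apply isClosed_le _ continuous_const
    exact (continuous_eval_const x).dist (continuous_eval_const y)
  · exact isClosed_eq (continuous_eval_const 0) continuous_const

lemma ae_mixed : ∀ᵐ (f : C(ℝ≥0, UnitAddCircle)) ∂mixed, LipschitzWith 1 (⇑f) ∧ f 0 = 0 := by
  unfold mixed
  apply Measure.ae_smul_measure
  rw [ae_finsetSum_measure_iff]
  intro c _
  rw [ae_map_iff (measurable_path_cat c).aemeasurable isClosed_strategies.measurableSet]
  exact Filter.Eventually.of_forall fun ω => ⟨path_lipschitz _, path_zero _⟩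

lemma lintegral_mixed_le (F : C(ℝ≥0, UnitAddCircle) → ℝ≥0∞) :
    ∫⁻ f, F f ∂mixed ≤ (1 / 10) * ∑ c ∈ codes, ∫⁻ ω, F (path (cat c ω)) ∂coin := by
  unfold mixed
  rw [lintegral_smul_measure, lintegral_finsetSum_measure, smul_eq_mul]
  gcongr with c _
  exact lintegral_map_le _ _

/-- The expected meeting time of the mixed strategy against itself. -/
lemma mixed_value :
    ∫⁻ f, (∫⁻ g, meet f g ∂mixed) ∂mixed ≤ ENNReal.ofReal (299 / 400) := by
  calc ∫⁻ f, (∫⁻ g, meet f g ∂mixed) ∂mixed
      ≤ (1 / 10) * ∑ c ∈ codes, ∫⁻ ω, (∫⁻ g, meet (path (cat c ω)) g ∂mixed) ∂coin :=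
        lintegral_mixed_le _
    _ ≤ (1 / 10) * ∑ c ∈ codes, ∫⁻ ω, ((1 / 10) * ∑ c' ∈ codes,
          ∫⁻ ω', meet (path (cat c ω)) (path (cat c' ω')) ∂coin) ∂coin := by
        gcongr with c _ ω
        exact lintegral_mixed_le (fun g => meet (path (cat c ω)) g)
    _ ≤ (1 / 10) * ∑ c ∈ codes, ∫⁻ ω, ((1 / 10) * ∑ c' ∈ codes,
          ∫⁻ ω', (baseCost c c' + G (tailCost c c') ω ω') ∂coin) ∂coin := by
        gcongr with c _ ω c' _ ω'
        exact bound_pair c c' ω ω'
    _ = (1 / 10) * ∑ c ∈ codes, (1 / 10) * ∑ c' ∈ codes, ENNReal.ofReal ((cost16 c c' : ℝ) / 16) := by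
        congr 1
        apply Finset.sum_congr rfl
        intro c _
        rw [lintegral_const_mul' _ _ (by simp)]
        rw [lintegral_finsetSum' _ (fun c' _ => (measurable_inner _ _).aemeasurable)]
        simp_rw [lintegral_bound]
    _ = ENNReal.ofReal (299 / 400) := by
        have h1 : ∀ c ∈ codes, ((1 : ℝ≥0∞) / 10) * ∑ c' ∈ codes, ENNReal.ofReal ((cost16 c c' : ℝ) / 16)
            = ENNReal.ofReal ((1 / 10) * ∑ c' ∈ codes, (cost16 c c' : ℝ) / 16) := by
          intro c _
          rw [ENNReal.ofReal_mul (by norm_num), ENNReal.ofReal_sum_of_nonneg (by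
            intro i _; positivity), ENNReal.ofReal_div_of_pos (x := (1 : ℝ)) (by norm_num)]
          simp
        rw [Finset.sum_congr rfl h1, ← ENNReal.ofReal_sum_of_nonneg (by
            intro i _; positivity)]
        have h2 : ((1 : ℝ≥0∞) / 10) = ENNReal.ofReal (1 / 10) := by
          rw [ENNReal.ofReal_div_of_pos (by norm_num)]; simp
        rw [h2, ← ENNReal.ofReal_mul (by norm_num)]
        congr 1
        rw [← Finset.mul_sum]
        simp_rw [← Finset.sum_div]
        have h3 : ∑ c ∈ codes, ∑ c' ∈ codes, (cost16 c c' : ℝ) = 1196 := by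
          exact_mod_cast congrArg (Nat.cast : ℕ → ℝ) total_cost
        rw [h3]
        norm_num

end Pool.Agent.Lib.H96.Rdv
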