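import Pool.Agent.Lib.H96.RdvCO

/-!
# Unit speed paths on the circle given by a direction for every quarter of a time unit
-/

open MeasureTheory Set
open scoped ENNReal NNReal

namespace Pool.Agent.Lib.H96.Rdv

/-- The sign of a direction. -/
def sgn (b : Bool) : ℝ := if b then 1 else -1

@[simp] lemma sgn_true : sgn true = 1 := rfl
@[simp] lemma sgn_false : sgn false = -1 := rfl

lemma abs_sgn (b : Bool) : |sgn b| = 1 := by cases b <;> simp

/-- The velocity at time `u`. -/
noncomputable def vel (e : ℕ → Bool) (u : ℝ) : ℝ := sgn (e ⌊4 * u⌋₊)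

/-- The position (real lift) at time `τ`. -/
noncomputable def pos (e : ℕ → Bool) (τ : ℝ) : ℝ := ∫ u in (0 : ℝ)..τ, vel e u

lemma measurable_vel (e : ℕ → Bool) : Measurable (vel e) := by
  unfold vel
  have h1 : Measurable (fun u : ℝ => ⌊4 * u⌋₊) :=
    Nat.measurable_floor.comp (measurable_const_mul 4)
  have h2 : Measurable (fun n : ℕ => sgn (e n)) := measurable_of_countable _
  exact h2.comp h1

lemma intervalIntegrable_vel (e : ℕ → Bool) (a b : ℝ) :
    IntervalIntegrable (vel e) volume a b := by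
  rw [intervalIntegrable_iff]
  apply Measure.integrableOn_of_bounded (M := 1)
  · simp
  · exact (measurable_vel e).aestronglyMeasurable
  · refine Filter.Eventually.of_forall fun u => ?_
    rw [Real.norm_eq_abs]
    exact (abs_sgn _).le

lemma abs_pos_sub_le (e : ℕ → Bool) (s t : ℝ) : |pos e t - pos e s| ≤ |t - s| := by
  unfold pos
  rw [intervalIntegral.integral_interval_sub_left (intervalIntegrable_vel e _ _)
    (intervalIntegrable_vel e _ _)]
  have := intervalIntegral.norm_integral_le_of_norm_le_const (a := s) (b := t) (C := 1)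
    (f := vel e) (fun u _ => by rw [Real.norm_eq_abs]; exact (abs_sgn _).le)
  simpa using this

lemma pos_zero (e : ℕ → Bool) : pos e 0 = 0 := by simp [pos]

lemma floor_eq_of_mem {k : ℕ} {u : ℝ} (h0 : (k : ℝ) / 4 ≤ u) (h1 : u < (k : ℝ) / 4 + 1 / 4) :
    ⌊4 * u⌋₊ = k := by
  rw [Nat.floor_eq_iff (by have : (0 : ℝ) ≤ (k : ℝ) := Nat.cast_nonneg k; linarith)]
  constructor <;> linarith

lemma pos_step (e : ℕ → Bool) (k : ℕ) (u : ℝ) (h0 : 0 ≤ u) (h1 : u ≤ 1 / 4) :
    pos e ((k : ℝ) / 4 + u) = pos e ((k : ℝ) / 4) + sgn (e k) * u := by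
  have h2 : pos e ((k : ℝ) / 4 + u) - pos e ((k : ℝ) / 4)
      = ∫ v in ((k : ℝ) / 4)..((k : ℝ) / 4 + u), vel e v := by
    unfold pos
    rw [intervalIntegral.integral_interval_sub_left (intervalIntegrable_vel e _ _)
      (intervalIntegrable_vel e _ _)]
  have h3 : ∫ v in ((k : ℝ) / 4)..((k : ℝ) / 4 + u), vel e v
      = ∫ v in ((k : ℝ) / 4)..((k : ℝ) / 4 + u), sgn (e k) := by
    apply intervalIntegral.integral_congr_ae
    rw [uIoc_of_le (by linarith)]
    have : ∀ᵐ v : ℝ, v ≠ (k : ℝ) / 4 + 1 / 4 := by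
      simp [ae_iff, measure_singleton]
    filter_upwards [this] with v hv hmem
    unfold vel
    rw [floor_eq_of_mem hmem.1.le]
    rcases lt_or_eq_of_le (hmem.2.trans (by linarith : (k : ℝ) / 4 + u ≤ (k : ℝ) / 4 + 1 / 4))
      with h | h
    · exact h
    · exact absurd h hv
  rw [h3, intervalIntegral.integral_const] at h2
  simp only [add_sub_cancel_left, smul_eq_mul] at h2
  linarith

lemma pos_succ (e : ℕ → Bool) (k : ℕ) :
    pos e (((k + 1 : ℕ) : ℝ) / 4) = pos e ((k : ℝ) / 4) + sgn (e k) / 4 := by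
  have := pos_step e k (1 / 4) (by norm_num) le_rfl
  have h2 : (((k + 1 : ℕ) : ℝ) / 4) = (k : ℝ) / 4 + 1 / 4 := by push_cast; ring
  rw [h2, this]
  ring

lemma pos_eq_of_agree (e e' : ℕ → Bool) (M : ℕ) (h : ∀ j < M, e j = e' j) (τ : ℝ)
    (h0 : 0 ≤ τ) (h1 : τ < (M : ℝ) / 4) : pos e τ = pos e' τ := by
  unfold pos
  apply intervalIntegral.integral_congr
  intro u hu
  rw [uIcc_of_le h0] at hu
  unfold vel
  rw [h]
  rw [Nat.floor_lt (by linarith [hu.1])]
  linarith [hu.2]

/-- The path on the circle with directions `e`. -/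
noncomputable def path (e : ℕ → Bool) : C(ℝ≥0, UnitAddCircle) where
  toFun τ := ((pos e (τ : ℝ) : ℝ) : UnitAddCircle)
  continuous_toFun := by
    have h : Continuous (pos e) := by
      have : LipschitzWith 1 (pos e) := by
        apply LipschitzWith.of_dist_le_mul
        intro x y
        rw [Real.dist_eq, Real.dist_eq]
        simpa [abs_sub_comm] using abs_pos_sub_le e y x
      exact this.continuous
    exact (AddCircle.continuous_mk' 1).comp (h.comp NNReal.continuous_coe)

lemma path_apply (e : ℕ → Bool) (τ : ℝ≥0) : path e τ = ((pos e (τ : ℝ) : ℝ) : UnitAddCircle) := rfl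

lemma path_lipschitz (e : ℕ → Bool) : LipschitzWith 1 (path e) := by
  apply LipschitzWith.of_dist_le_mul
  intro x y
  rw [dist_eq_norm, path_apply, path_apply, ← AddCircle.coe_sub]
  calc ‖((pos e (x : ℝ) - pos e (y : ℝ) : ℝ) : UnitAddCircle)‖
      ≤ ‖pos e (x : ℝ) - pos e (y : ℝ)‖ := QuotientAddGroup.norm_mk_le_norm
    _ ≤ |(x : ℝ) - y| := by
        rw [Real.norm_eq_abs]
        exact abs_pos_sub_le e _ _
    _ = _ := by simp [NNReal.dist_eq]

lemma path_zero (e : ℕ → Bool) : path e 0 = 0 := by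
  rw [path_apply]
  simp [pos_zero]

lemma continuous_path : Continuous path := by
  apply ContinuousMap.continuous_of_continuous_uncurry
  rw [continuous_iff_continuousAt]
  rintro ⟨e₀, τ₀⟩
  obtain ⟨M, hM⟩ := exists_nat_gt (4 * ((τ₀ : ℝ) + 1))
  have hc : ContinuousAt (fun p : (ℕ → Bool) × ℝ≥0 => path e₀ p.2) (e₀, τ₀) := by
    have : Continuous (fun p : (ℕ → Bool) × ℝ≥0 => path e₀ p.2) :=
      (path e₀).continuous.comp continuous_snd
    exact this.continuousAt
  apply hc.congr
  have h1 : {e : ℕ → Bool | ∀ j ∈ Finset.range M, e₀ j = e j} ∈ nhds e₀ := by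
    have : {e : ℕ → Bool | ∀ j ∈ Finset.range M, e₀ j = e j}
        = ⋂ j ∈ Finset.range M, (fun e : ℕ → Bool => e j) ⁻¹' {e₀ j} := by
      ext e
      simp only [mem_ofPred_eq, mem_iInter, mem_preimage, mem_singleton_iff]
      exact forall₂_congr fun j _ => eq_comm
    rw [this]
    apply IsOpen.mem_nhds
    · apply isOpen_biInter_finset
      intro j _
      exact (continuous_apply j).isOpen_preimage _ (isOpen_discrete _)
    · simp
  have h2 : {τ : ℝ≥0 | (τ : ℝ) < τ₀ + 1} ∈ nhds τ₀ := by
    apply IsOpen.mem_nhds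
    · exact isOpen_lt NNReal.continuous_coe continuous_const
    · simp
  filter_upwards [prod_mem_nhds h1 h2] with p hp
  obtain ⟨hp1, hp2⟩ := hp
  simp only [Function.uncurry]
  rw [path_apply, path_apply]
  congr 1
  apply pos_eq_of_agree e₀ p.1 M (fun j hj => hp1 j (Finset.mem_range.mpr hj)) _ (by positivity)
  have : (p.2 : ℝ) < τ₀ + 1 := hp2
  linarith

/-- Parity of the number of disagreements before step `k`. -/
def par (e e' : ℕ → Bool) : ℕ → Bool
  | 0 => false
  | k + 1 => xor (par e e' k) (xor (e k) (e' k))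

lemma diff_par (e e' : ℕ → Bool) (k : ℕ) :
    ∃ z : ℤ, pos e' ((k : ℝ) / 4) - pos e ((k : ℝ) / 4)
      = (if par e e' k then 1 / 2 else 0) + z := by
  induction k with
  | zero => exact ⟨0, by simp [par, pos_zero]⟩
  | succ k ih =>
    obtain ⟨z, hz⟩ := ih
    rw [pos_succ, pos_succ]
    have : pos e' ((k : ℝ) / 4) + sgn (e' k) / 4 - (pos e ((k : ℝ) / 4) + sgn (e k) / 4)
        = (if par e e' k then 1 / 2 else 0) + z + (sgn (e' k) - sgn (e k)) / 4 := by
      rw [← hz]; ring
    rw [this]
    cases h1 : e k <;> cases h2 : e' k <;> cases h3 : par e e' k <;>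
      simp only [par, h1, h2, h3, sgn_true, sgn_false, Bool.xor_false, Bool.xor_true,
        Bool.not_true, Bool.not_false, Bool.false_eq_true, if_true, if_false]
    · exact ⟨z, by ring⟩
    · exact ⟨z, by ring⟩
    · exact ⟨z, by ring⟩
    · exact ⟨z + 1, by push_cast; ring⟩
    · exact ⟨z - 1, by push_cast; ring⟩
    · exact ⟨z, by ring⟩
    · exact ⟨z, by ring⟩
    · exact ⟨z, by ring⟩

/-- The arc (`true`: from `0` to `1/2`; `false`: from `1/2` to `1`) which is swept in step `k`. -/
def arc (e e' : ℕ → Bool) (k : ℕ) : Bool := xor (e' k) (par e e' k)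

lemma hit (e e' : ℕ → Bool) (k : ℕ) (u x : ℝ) (z : ℤ) (h0 : 0 ≤ u) (h1 : u ≤ 1 / 4)
    (hx : x = pos e' ((k : ℝ) / 4) - pos e ((k : ℝ) / 4) + (sgn (e' k) - sgn (e k)) * u + z) :
    (⨅ (τ : ℝ≥0) (_ : ((x : ℝ) : UnitAddCircle) + path e τ = path e' τ), ((τ : ENNReal)))
      ≤ ENNReal.ofReal ((k : ℝ) / 4 + u) := by
  have hk : (0 : ℝ) ≤ (k : ℝ) / 4 + u := by positivity
  have hcoe : (((((k : ℝ) / 4 + u).toNNReal : ℝ≥0) : ℝ)) = (k : ℝ) / 4 + u :=
    Real.coe_toNNReal _ hk
  refine iInf₂_le_of_le ((k : ℝ) / 4 + u).toNNReal ?_ le_rfl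
  rw [path_apply, path_apply, circ_iff, hcoe, pos_step e k u h0 h1, pos_step e' k u h0 h1]
  refine ⟨z, ?_⟩
  rw [hx]
  ring

lemma hit_up (e e' : ℕ → Bool) (k : ℕ) (hne : e k ≠ e' k) (harc : arc e e' k = true)
    (x : ℝ) (hx0 : 0 ≤ x) (hx1 : x ≤ 1 / 2) :
    (⨅ (τ : ℝ≥0) (_ : ((x : ℝ) : UnitAddCircle) + path e τ = path e' τ), ((τ : ENNReal)))
      ≤ ENNReal.ofReal (if e' k then (k : ℝ) / 4 + x / 2 else (k : ℝ) / 4 + (1 / 2 - x) / 2) := by
  obtain ⟨z, hz⟩ := diff_par e e' k
  unfold arc at harc
  cases h2 : e' k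
  · have h1 : e k = true := by
      cases h : e k
      · exact absurd (h.trans h2.symm) hne
      · rfl
    have h3 : par e e' k = true := by simpa [h2] using harc
    simp only [Bool.false_eq_true, if_false]
    apply hit e e' k ((1 / 2 - x) / 2) x (-z) (by linarith) (by linarith)
    rw [hz, h1, h2, h3]
    simp only [if_true, sgn_true, sgn_false]
    push_cast
    ring
  · have h1 : e k = false := by
      cases h : e k
      · rfl
      · exact absurd (h.trans h2.symm) hne
    have h3 : par e e' k = false := by simpa [h2] using harc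
    simp only [if_true]
    apply hit e e' k (x / 2) x (-z) (by linarith) (by linarith)
    rw [hz, h1, h2, h3]
    simp only [Bool.false_eq_true, if_false, sgn_true, sgn_false]
    push_cast
    ring

lemma hit_down (e e' : ℕ → Bool) (k : ℕ) (hne : e k ≠ e' k) (harc : arc e e' k = false)
    (x : ℝ) (hx0 : 1 / 2 ≤ x) (hx1 : x ≤ 1) :
    (⨅ (τ : ℝ≥0) (_ : ((x : ℝ) : UnitAddCircle) + path e τ = path e' τ), ((τ : ENNReal)))
      ≤ ENNReal.ofReal (if e' k then (k : ℝ) / 4 + (x - 1 / 2) / 2 else (k : ℝ) / 4 + (1 - x) / 2) := by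
  obtain ⟨z, hz⟩ := diff_par e e' k
  unfold arc at harc
  cases h2 : e' k
  · have h1 : e k = true := by
      cases h : e k
      · exact absurd (h.trans h2.symm) hne
      · rfl
    have h3 : par e e' k = false := by simpa [h2] using harc
    simp only [Bool.false_eq_true, if_false]
    apply hit e e' k ((1 - x) / 2) x (-z + 1) (by linarith) (by linarith)
    rw [hz, h1, h2, h3]
    simp only [Bool.false_eq_true, if_false, sgn_true, sgn_false]
    push_cast
    ring
  · have h1 : e k = false := by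
      cases h : e k
      · rfl
      · exact absurd (h.trans h2.symm) hne
    have h3 : par e e' k = true := by simpa [h2] using harc
    simp only [if_true]
    apply hit e e' k ((x - 1 / 2) / 2) x (-z) (by linarith) (by linarith)
    rw [hz, h1, h2, h3]
    simp only [if_true, sgn_true, sgn_false]
    push_cast
    ring

lemma lintegral_Ioc_affine (a b c d : ℝ) (hab : a ≤ b) (ha : 0 ≤ c + d * a) (hb : 0 ≤ c + d * b) :
    ∫⁻ x in Ioc a b, ENNReal.ofReal (c + d * x)
      = ENNReal.ofReal (c * (b - a) + d * (b ^ 2 - a ^ 2) / 2) := by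
  rw [← ofReal_integral_eq_lintegral_ofReal]
  · congr 1
    rw [← intervalIntegral.integral_of_le hab]
    rw [intervalIntegral.integral_add (by simp) (by
      apply Continuous.intervalIntegrable; fun_prop)]
    rw [intervalIntegral.integral_const_mul]
    simp
    ring
  · apply Continuous.integrableOn_Ioc
    fun_prop
  · rw [Filter.EventuallyLE, ae_restrict_iff' measurableSet_Ioc]
    refine Filter.Eventually.of_forall fun x hx => ?_
    simp only [Pi.zero_apply]
    have h1 := hx.1
    have h2 := hx.2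
    by_cases hd : 0 ≤ d
    · nlinarith
    · push Not at hd
      nlinarith

/-- Upper bound for the expected meeting time of two paths, both arcs being swept. -/
lemma meet_le (e e' : ℕ → Bool) (k l : ℕ) (hk : e k ≠ e' k) (hk' : arc e e' k = true)
    (hl : e l ≠ e' l) (hl' : arc e e' l = false) :
    meet (path e) (path e') ≤ ENNReal.ofReal (((k : ℝ) + l + 1) / 8) := by
  unfold meet
  rw [← UnitAddCircle.lintegral_preimage 0, zero_add]
  have hsplit : Ioc (0 : ℝ) 1 = Ioc 0 (1 / 2) ∪ Ioc (1 / 2) 1 := by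
    rw [Ioc_union_Ioc_eq_Ioc] <;> norm_num
  rw [hsplit, lintegral_union measurableSet_Ioc (by
    rw [Set.disjoint_left]
    rintro x ⟨_, h1⟩ ⟨h2, _⟩
    linarith)]
  have h1 : ∫⁻ x in Ioc (0 : ℝ) (1 / 2), (⨅ (τ : ℝ≥0)
      (_ : ((x : ℝ) : UnitAddCircle) + path e τ = path e' τ), ((τ : ENNReal)))
      ≤ ENNReal.ofReal ((k : ℝ) / 8 + 1 / 16) := by
    calc _ ≤ ∫⁻ x in Ioc (0 : ℝ) (1 / 2), ENNReal.ofReal
          (if e' k then (k : ℝ) / 4 + x / 2 else (k : ℝ) / 4 + (1 / 2 - x) / 2) := by
          apply setLIntegral_mono' measurableSet_Ioc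
          intro x hx
          exact hit_up e e' k hk hk' x hx.1.le hx.2
      _ = _ := by
          cases e' k
          · simp only [Bool.false_eq_true, if_false]
            have : ∀ x : ℝ, (k : ℝ) / 4 + (1 / 2 - x) / 2 = ((k : ℝ) / 4 + 1 / 4) + (-1 / 2) * x := by
              intro x; ring
            simp_rw [this]
            rw [lintegral_Ioc_affine _ _ _ _ (by norm_num) (by positivity) (by
              have : (0 : ℝ) ≤ k := by positivity
              linarith)]
            congr 1
            ring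
          · simp only [if_true]
            have : ∀ x : ℝ, (k : ℝ) / 4 + x / 2 = ((k : ℝ) / 4) + (1 / 2) * x := by
              intro x; ring
            simp_rw [this]
            rw [lintegral_Ioc_affine _ _ _ _ (by norm_num) (by positivity) (by positivity)]
            congr 1
            ring
  have h2 : ∫⁻ x in Ioc (1 / 2 : ℝ) 1, (⨅ (τ : ℝ≥0)
      (_ : ((x : ℝ) : UnitAddCircle) + path e τ = path e' τ), ((τ : ENNReal)))
      ≤ ENNReal.ofReal ((l : ℝ) / 8 + 1 / 16) := by
    calc _ ≤ ∫⁻ x in Ioc (1 / 2 : ℝ) 1, ENNReal.ofReal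
          (if e' l then (l : ℝ) / 4 + (x - 1 / 2) / 2 else (l : ℝ) / 4 + (1 - x) / 2) := by
          apply setLIntegral_mono' measurableSet_Ioc
          intro x hx
          exact hit_down e e' l hl hl' x hx.1.le hx.2
      _ = _ := by
          cases e' l
          · simp only [Bool.false_eq_true, if_false]
            have : ∀ x : ℝ, (l : ℝ) / 4 + (1 - x) / 2 = ((l : ℝ) / 4 + 1 / 2) + (-1 / 2) * x := by
              intro x; ring
            simp_rw [this]
            rw [lintegral_Ioc_affine _ _ _ _ (by norm_num) (by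
              have : (0 : ℝ) ≤ l := by positivity
              linarith) (by
              have : (0 : ℝ) ≤ l := by positivity
              linarith)]
            congr 1
            ring
          · simp only [if_true]
            have : ∀ x : ℝ, (l : ℝ) / 4 + (x - 1 / 2) / 2
                = ((l : ℝ) / 4 - 1 / 4) + (1 / 2) * x := by
              intro x; ring
            simp_rw [this]
            rw [lintegral_Ioc_affine _ _ _ _ (by norm_num) (by
              have : (0 : ℝ) ≤ l := by positivity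
              linarith) (by
              have : (0 : ℝ) ≤ l := by positivity
              linarith)]
            congr 1
            ring
  calc _ ≤ ENNReal.ofReal ((k : ℝ) / 8 + 1 / 16) + ENNReal.ofReal ((l : ℝ) / 8 + 1 / 16) :=
        add_le_add h1 h2
    _ = _ := by
        rw [← ENNReal.ofReal_add (by positivity) (by positivity)]
        congr 1
        ring

end Pool.Agent.Lib.H96.Rdv
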