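import Pool.Agent.Lib.H96.RdvPath

/-!
# A mixed strategy better than the coin half tour
-/

open MeasureTheory Set
open scoped ENNReal NNReal

namespace Pool.Agent.Lib.H96.Rdv

/-- The directions: the first six quarters are given by the binary digits of `c`, afterwards a coin
half tour with coins `ω` (two quarters in the same direction per coin). -/
def cat (c : ℕ) (ω : ℕ → Bool) : ℕ → Bool := fun j => if j < 6 then c.testBit j else ω ((j - 6) / 2)

lemma cat_lt (c : ℕ) (ω : ℕ → Bool) {j : ℕ} (hj : j < 6) : cat c ω j = c.testBit j := by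
  simp [cat, hj]

lemma cat_even (c : ℕ) (ω : ℕ → Bool) (n : ℕ) : cat c ω (6 + 2 * n) = ω n := by
  unfold cat
  rw [if_neg (by omega)]
  congr 1
  omega

lemma cat_odd (c : ℕ) (ω : ℕ → Bool) (n : ℕ) : cat c ω (6 + 2 * n + 1) = ω n := by
  unfold cat
  rw [if_neg (by omega)]
  congr 1
  omega

lemma par_congr (e e' d d' : ℕ → Bool) (M : ℕ) (h : ∀ j < M, e j = d j)
    (h' : ∀ j < M, e' j = d' j) : ∀ k ≤ M, par e e' k = par d d' k := by
  intro k
  induction k with
  | zero => intro _; rfl
  | succ k ih =>
    intro hk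
    simp only [par]
    rw [ih (by omega), h k (by omega), h' k (by omega)]

lemma par_cat (c c' : ℕ) (ω ω' : ℕ → Bool) (k : ℕ) (hk : k ≤ 6) :
    par (cat c ω) (cat c' ω') k = par c.testBit c'.testBit k :=
  par_congr _ _ _ _ 6 (fun _ hj => cat_lt c ω hj) (fun _ hj => cat_lt c' ω' hj) k hk

lemma par_cat_tail (c c' : ℕ) (ω ω' : ℕ → Bool) (N : ℕ) (hag : ∀ j < N, ω j = ω' j) :
    ∀ m ≤ 2 * N, par (cat c ω) (cat c' ω') (6 + m) = par c.testBit c'.testBit 6 := by
  intro m
  induction m with
  | zero => intro _; exact par_cat c c' ω ω' 6 le_rfl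
  | succ m ih =>
    intro hm
    have h1 : par (cat c ω) (cat c' ω') (6 + (m + 1))
        = xor (par (cat c ω) (cat c' ω') (6 + m)) (xor (cat c ω (6 + m)) (cat c' ω' (6 + m))) := rfl
    have h2 : cat c ω (6 + m) = cat c' ω' (6 + m) := by
      unfold cat
      rw [if_neg (by omega), if_neg (by omega)]
      apply hag
      omega
    rw [h1, ih (by omega), h2, Bool.xor_self, Bool.xor_false]

/-- Did step `k < 6` sweep the arc `t`? -/
def sweeps (c c' : ℕ) (t : Bool) (k : ℕ) : Bool :=
  (c.testBit k != c'.testBit k) && (xor (c'.testBit k) (par c.testBit c'.testBit k) == t)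

/-- First step among the first six which sweeps the arc `t`. -/
def firstSweep (c c' : ℕ) (t : Bool) : Option ℕ := (List.range 6).find? (sweeps c c' t)

lemma firstSweep_spec (c c' : ℕ) (t : Bool) (k : ℕ) (h : firstSweep c c' t = some k)
    (ω ω' : ℕ → Bool) :
    cat c ω k ≠ cat c' ω' k ∧ arc (cat c ω) (cat c' ω') k = t := by
  unfold firstSweep at h
  have h1 := List.find?_some h
  have h2 : k ∈ List.range 6 := List.mem_of_find?_eq_some h
  have hk : k < 6 := List.mem_range.mp h2
  unfold sweeps at h1
  simp only [Bool.and_eq_true, bne_iff_ne, ne_eq, beq_iff_eq] at h1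
  rw [cat_lt c ω hk, cat_lt c' ω' hk]
  refine ⟨h1.1, ?_⟩
  unfold arc
  rw [cat_lt c' ω' hk, par_cat c c' ω ω' k (by omega)]
  exact h1.2

/-- Sixteen times the expected cost of the pair `c`, `c'`. -/
def cost16 (c c' : ℕ) : ℕ :=
  match firstSweep c c' true, firstSweep c c' false with
  | some a, some b => 2 * (a + b + 1)
  | some a, none => 2 * a + 19
  | none, some b => 2 * b + 19
  | none, none => 36

lemma G_top (h : Bool → Bool → ℝ≥0∞) (ω : ℕ → Bool) (δ : ℝ≥0∞) (hδ : δ ≠ 0)
    (hh : ∀ b, δ ≤ h b b) : G h ω ω = ⊤ := by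
  unfold G
  have h1 : ∑' _ : ℕ, δ = ⊤ := ENNReal.tsum_const_eq_top_of_ne_zero hδ
  rw [eq_top_iff, ← h1]
  apply ENNReal.tsum_le_tsum
  intro n
  unfold term
  rw [if_pos (fun _ _ => rfl)]
  exact hh _

/-- Pointwise bound if no arc is swept in the first six steps. -/
lemma bound_none (c c' : ℕ) (ω ω' : ℕ → Bool) :
    meet (path (cat c ω)) (path (cat c' ω')) ≤
      7 / 4 + G (fun b b' => if b = b' then 1 / 2 else 0) ω ω' := by
  by_cases hne : ω = ω'
  · subst hne
    rw [G_top _ ω (1 / 2) (by simp) (by simp)]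
    simp
  · have hex : ∃ N, ω N ≠ ω' N := by
      by_contra h
      push Not at h
      exact hne (funext h)
    classical
    let N := Nat.find hex
    have hd : ω N ≠ ω' N := Nat.find_spec hex
    have hag : ∀ j < N, ω j = ω' j := fun j hj => by
      have := Nat.find_min hex hj
      push Not at this
      exact this
    rw [G_eq_of_first _ ω ω' N hag hd]
    simp only [if_true, if_neg hd, Finset.sum_const, Finset.card_range, add_zero, nsmul_eq_mul]
    set e := cat c ω
    set e' := cat c' ω'
    have hk : e (6 + 2 * N) ≠ e' (6 + 2 * N) := by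
      simp only [e, e', cat_even]; exact hd
    have hl : e (6 + 2 * N + 1) ≠ e' (6 + 2 * N + 1) := by
      simp only [e, e', cat_odd]; exact hd
    have hpar : par e e' (6 + 2 * N + 1) = !(par e e' (6 + 2 * N)) := by
      simp only [par]
      have : xor (e (6 + 2 * N)) (e' (6 + 2 * N)) = true := by
        cases h1 : e (6 + 2 * N) <;> cases h2 : e' (6 + 2 * N) <;> simp_all
      rw [this]
      simp
    have hval : (7 / 4 : ℝ≥0∞) + (N : ℝ≥0∞) * (1 / 2)
        = ENNReal.ofReal ((((6 + 2 * N : ℕ) : ℝ) + ((6 + 2 * N + 1 : ℕ) : ℝ) + 1) / 8) := by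
      have h1 : (((6 + 2 * N : ℕ) : ℝ) + ((6 + 2 * N + 1 : ℕ) : ℝ) + 1) / 8
          = 7 / 4 + (N : ℝ) * (1 / 2) := by push_cast; ring
      rw [h1, ENNReal.ofReal_add (by norm_num) (by positivity),
        ENNReal.ofReal_mul (by positivity), ENNReal.ofReal_div_of_pos (by norm_num),
        ENNReal.ofReal_div_of_pos (by norm_num)]
      simp
    rw [hval]
    by_cases ha : arc e e' (6 + 2 * N) = true
    · apply meet_le e e' _ _ hk ha hl
      unfold arc at ha ⊢
      rw [hpar]
      simp only [e', cat_even, cat_odd] at ha ⊢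
      cases h1 : ω' N <;> cases h2 : par e (cat c' ω') (6 + 2 * N) <;> simp_all
    · have ha' : arc e e' (6 + 2 * N) = false := by simpa using ha
      have : (((6 + 2 * N : ℕ) : ℝ) + ((6 + 2 * N + 1 : ℕ) : ℝ) + 1) / 8
          = (((6 + 2 * N + 1 : ℕ) : ℝ) + ((6 + 2 * N : ℕ) : ℝ) + 1) / 8 := by ring
      rw [this]
      apply meet_le e e' _ _ hl _ hk ha'
      unfold arc at ha' ⊢
      rw [hpar]
      simp only [e', cat_even, cat_odd] at ha' ⊢
      cases h1 : ω' N <;> cases h2 : par e (cat c' ω') (6 + 2 * N) <;> simp_all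

/-- Extra cost in the case in which one arc has been swept; the arc `t` is missing and `p` is the
parity after six steps. -/
noncomputable def hOne (t p : Bool) (b b' : Bool) : ℝ≥0∞ :=
  if b = b' then 1 / 4 else if xor b' p = t then 0 else 1 / 8

/-- Pointwise bound if one arc is swept at step `a` and the other arc `t` is missing. -/
lemma bound_one (c c' : ℕ) (t : Bool) (a : ℕ) (ω ω' : ℕ → Bool)
    (ha : cat c ω a ≠ cat c' ω' a) (ha' : arc (cat c ω) (cat c' ω') a = !t) :
    meet (path (cat c ω)) (path (cat c' ω')) ≤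
      ENNReal.ofReal (((a : ℝ) + 7) / 8)
        + G (hOne t (par c.testBit c'.testBit 6)) ω ω' := by
  by_cases hne : ω = ω'
  · subst hne
    rw [G_top _ ω (1 / 4) (by simp) (by simp [hOne])]
    simp
  · have hex : ∃ N, ω N ≠ ω' N := by
      by_contra h
      push Not at h
      exact hne (funext h)
    classical
    let N := Nat.find hex
    have hd : ω N ≠ ω' N := Nat.find_spec hex
    have hag : ∀ j < N, ω j = ω' j := fun j hj => by
      have := Nat.find_min hex hj
      push Not at this
      exact this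
    rw [G_eq_of_first _ ω ω' N hag hd]
    have hsum : ∑ n ∈ Finset.range N, hOne t (par c.testBit c'.testBit 6) (ω n) (ω n)
        = (N : ℝ≥0∞) * (1 / 4) := by
      simp [hOne]
    rw [hsum]
    set p := par c.testBit c'.testBit 6 with hp
    have hpar0 : par (cat c ω) (cat c' ω') (6 + 2 * N) = p := par_cat_tail c c' ω ω' N hag _ le_rfl
    have hk : cat c ω (6 + 2 * N) ≠ cat c' ω' (6 + 2 * N) := by
      simp only [cat_even]; exact hd
    have hl : cat c ω (6 + 2 * N + 1) ≠ cat c' ω' (6 + 2 * N + 1) := by
      simp only [cat_odd]; exact hd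
    have hpar : par (cat c ω) (cat c' ω') (6 + 2 * N + 1) = !p := by
      have h0 : par (cat c ω) (cat c' ω') (6 + 2 * N + 1)
          = xor (par (cat c ω) (cat c' ω') (6 + 2 * N))
            (xor (cat c ω (6 + 2 * N)) (cat c' ω' (6 + 2 * N))) := rfl
      rw [h0, hpar0, cat_even, cat_even]
      have : xor (ω N) (ω' N) = true := by
        cases h1 : ω N <;> cases h2 : ω' N <;> simp_all
      rw [this]
      simp
    -- the key estimate for any step `l` sweeping the missing arc
    have key : ∀ l : ℕ, cat c ω l ≠ cat c' ω' l → arc (cat c ω) (cat c' ω') l = t →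
        meet (path (cat c ω)) (path (cat c' ω')) ≤ ENNReal.ofReal (((a : ℝ) + l + 1) / 8) := by
      intro l hl1 hl2
      cases t
      · exact meet_le _ _ a l ha (by simpa using ha') hl1 hl2
      · have := meet_le _ _ l a hl1 hl2 ha (by simpa using ha')
        have h3 : ((a : ℝ) + l + 1) / 8 = ((l : ℝ) + a + 1) / 8 := by ring
        rw [h3]
        exact this
    by_cases hx : xor (ω' N) p = t
    · have h1 := key (6 + 2 * N) hk (by
        unfold arc
        rw [hpar0, cat_even]
        exact hx)
      refine h1.trans (le_of_eq ?_)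
      have h2 : hOne t p (ω N) (ω' N) = 0 := by simp [hOne, hd, hx]
      rw [h2, add_zero]
      have h3 : ((a : ℝ) + ((6 + 2 * N : ℕ) : ℝ) + 1) / 8 = ((a : ℝ) + 7) / 8 + (N : ℝ) * (1 / 4) := by
        push_cast; ring
      rw [h3, ENNReal.ofReal_add (by positivity) (by positivity),
        ENNReal.ofReal_mul (p := (N : ℝ)) (by positivity),
        ENNReal.ofReal_div_of_pos (x := (1 : ℝ)) (by norm_num)]
      simp
    · have h1 := key (6 + 2 * N + 1) hl (by
        unfold arc
        rw [hpar, cat_odd]
        cases h1 : ω' N <;> cases h2 : p <;> cases h3 : t <;> simp_all)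
      refine h1.trans (le_of_eq ?_)
      have h2 : hOne t p (ω N) (ω' N) = 1 / 8 := by simp [hOne, hd, hx]
      rw [h2]
      have h3 : ((a : ℝ) + ((6 + 2 * N + 1 : ℕ) : ℝ) + 1) / 8
          = ((a : ℝ) + 7) / 8 + ((N : ℝ) * (1 / 4) + 1 / 8) := by
        push_cast; ring
      rw [h3, ENNReal.ofReal_add (by positivity) (by positivity),
        ENNReal.ofReal_add (by positivity) (by positivity),
        ENNReal.ofReal_mul (p := (N : ℝ)) (by positivity),
        ENNReal.ofReal_div_of_pos (x := (1 : ℝ)) (y := 4) (by norm_num),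
        ENNReal.ofReal_div_of_pos (x := (1 : ℝ)) (y := 8) (by norm_num)]
      simp

lemma lintegral_hOne (t p : Bool) :
    ∫⁻ ω, (∫⁻ ω', G (hOne t p) ω ω' ∂coin) ∂coin = ENNReal.ofReal (5 / 16) := by
  rw [lintegral_G]
  have h8 : (1 / 8 : ℝ≥0∞) = ENNReal.ofReal (1 / 8) := by
    rw [ENNReal.ofReal_div_of_pos (by norm_num)]; simp
  have h4 : (1 / 4 : ℝ≥0∞) = ENNReal.ofReal (1 / 4) := by
    rw [ENNReal.ofReal_div_of_pos (by norm_num)]; simp
  have h2 : (2 : ℝ≥0∞) = ENNReal.ofReal 2 := by simp
  have h0 : (0 : ℝ≥0∞) = ENNReal.ofReal 0 := by simp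
  have hsum : hOne t p true true + hOne t p true false + hOne t p false true + hOne t p false false
      = ENNReal.ofReal (5 / 8) := by
    cases t <;> cases p <;> simp only [hOne, if_true, Bool.true_eq_false, if_false,
      Bool.false_eq_true, Bool.xor_false, Bool.xor_true, Bool.not_true, Bool.not_false] <;>
      rw [h4, h8, h0, ← ENNReal.ofReal_add (by norm_num) (by norm_num),
        ← ENNReal.ofReal_add (by norm_num) (by norm_num),
        ← ENNReal.ofReal_add (by norm_num) (by norm_num)] <;> norm_num
  rw [hsum, h2, ← ENNReal.ofReal_div_of_pos (by norm_num)]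
  norm_num

lemma lintegral_const_add_G (C : ℝ≥0∞) (h : Bool → Bool → ℝ≥0∞) :
    ∫⁻ ω, (∫⁻ ω', (C + G h ω ω') ∂coin) ∂coin
      = C + ∫⁻ ω, (∫⁻ ω', G h ω ω' ∂coin) ∂coin := by
  have h1 : ∀ ω : ℕ → Bool, ∫⁻ ω', (C + G h ω ω') ∂coin = C + ∫⁻ ω', G h ω ω' ∂coin := by
    intro ω
    rw [lintegral_add_left measurable_const]
    simp
  simp_rw [h1]
  rw [lintegral_add_left measurable_const]
  simp

/-- The constant part of the bound for the pair `c`, `c'`. -/
noncomputable def baseCost (c c' : ℕ) : ℝ≥0∞ :=
  match firstSweep c c' true, firstSweep c c' false with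
  | some a, some b => ENNReal.ofReal (((a : ℝ) + b + 1) / 8)
  | some a, none => ENNReal.ofReal (((a : ℝ) + 7) / 8)
  | none, some b => ENNReal.ofReal (((b : ℝ) + 7) / 8)
  | none, none => 7 / 4

/-- The part of the bound for the pair `c`, `c'` which depends on the coins. -/
noncomputable def tailCost (c c' : ℕ) : Bool → Bool → ℝ≥0∞ :=
  match firstSweep c c' true, firstSweep c c' false with
  | some _, some _ => fun _ _ => 0
  | some _, none => hOne false (par c.testBit c'.testBit 6)
  | none, some _ => hOne true (par c.testBit c'.testBit 6)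
  | none, none => fun b b' => if b = b' then 1 / 2 else 0

/-- Pointwise bound for the pair `c`, `c'`. -/
lemma bound_pair (c c' : ℕ) (ω ω' : ℕ → Bool) :
    meet (path (cat c ω)) (path (cat c' ω')) ≤ baseCost c c' + G (tailCost c c') ω ω' := by
  unfold baseCost tailCost
  cases hU : firstSweep c c' true with
  | some a =>
    cases hL : firstSweep c c' false with
    | some b =>
      obtain ⟨h1, h2⟩ := firstSweep_spec c c' true a hU ω ω'
      obtain ⟨h3, h4⟩ := firstSweep_spec c c' false b hL ω ω'
      exact (meet_le _ _ a b h1 h2 h3 h4).trans le_self_add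
    | none =>
      obtain ⟨h1, h2⟩ := firstSweep_spec c c' true a hU ω ω'
      exact bound_one c c' false a ω ω' h1 h2
  | none =>
    cases hL : firstSweep c c' false with
    | some b =>
      obtain ⟨h1, h2⟩ := firstSweep_spec c c' false b hL ω ω'
      exact bound_one c c' true b ω ω' h1 h2
    | none => exact bound_none c c' ω ω'

lemma lintegral_bound (c c' : ℕ) :
    ∫⁻ ω, (∫⁻ ω', (baseCost c c' + G (tailCost c c') ω ω') ∂coin) ∂coin
      = ENNReal.ofReal ((cost16 c c' : ℝ) / 16) := by
  rw [lintegral_const_add_G]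
  unfold baseCost tailCost cost16
  cases hU : firstSweep c c' true with
  | some a =>
    cases hL : firstSweep c c' false with
    | some b =>
      simp only
      rw [lintegral_G]
      simp only [add_zero, ENNReal.zero_div]
      congr 1
      push_cast
      ring
    | none =>
      simp only
      rw [lintegral_hOne, ← ENNReal.ofReal_add (by positivity) (by norm_num)]
      congr 1
      push_cast
      ring
  | none =>
    cases hL : firstSweep c c' false with
    | some b =>
      simp only
      rw [lintegral_hOne, ← ENNReal.ofReal_add (by positivity) (by norm_num)]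
      congr 1
      push_cast
      ring
    | none =>
      simp only
      rw [lintegral_G]
      simp only [if_true, Bool.true_eq_false, if_false, Bool.false_eq_true, add_zero]
      have h74 : (7 / 4 : ℝ≥0∞) = ENNReal.ofReal (7 / 4) := by
        rw [ENNReal.ofReal_div_of_pos (by norm_num)]; simp
      have h12 : (1 / 2 : ℝ≥0∞) = ENNReal.ofReal (1 / 2) := by
        rw [ENNReal.ofReal_div_of_pos (by norm_num)]; simp
      have h2 : (2 : ℝ≥0∞) = ENNReal.ofReal 2 := by simp
      rw [h74, h12, h2, ← ENNReal.ofReal_add (by norm_num) (by norm_num),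
        ← ENNReal.ofReal_div_of_pos (by norm_num),
        ← ENNReal.ofReal_add (by norm_num) (by norm_num)]
      norm_num

lemma measurable_inner (C : ℝ≥0∞) (h : Bool → Bool → ℝ≥0∞) :
    Measurable (fun ω => ∫⁻ ω', (C + G h ω ω') ∂coin) := by
  have h1 : ∀ ω : ℕ → Bool, ∫⁻ ω', (C + G h ω ω') ∂coin
      = C + ∑' n, (1 / 2) ^ (n + 1) * (h (ω n) true + h (ω n) false) := by
    intro ω
    rw [lintegral_add_left measurable_const]
    unfold G
    rw [lintegral_tsum (fun n => (measurable_term_right h n ω).aemeasurable)]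
    simp_rw [lintegral_term]
    simp
  simp_rw [h1]
  apply Measurable.const_add
  apply Measurable.ennreal_tsum
  intro n
  apply measurable_of_finset_dep (n + 1)
  intro a b hab
  rw [hab n (by omega)]

/-- The ten direction patterns for the first six quarters (bit `j` is the direction of quarter
`j`; with R for `true` and L for `false`): LLLLLL, RRRLLL, LLRRLL, LRLLRL, LRRRRL and their
reflections. -/
def codes : Finset ℕ := {0, 7, 12, 18, 30, 63, 56, 51, 45, 33}

lemma total_cost : ∑ c ∈ codes, ∑ c' ∈ codes, cost16 c c' = 1196 := by decide +kernel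

end Pool.Agent.Lib.H96.Rdv
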